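import Pool.Agent.Lib.helper11.ETRLinkA
import Pool.Agent.Lib.helper11.ETRLinkB
import Pool.Agent.Lib.helper10.NPGraphL

namespace Pool.Agent.Results.MP_f9087f_lc.UnitLink

open Pool.Agent.Cx RealInnerProductSpace

section
variable {V : Type} [NormedAddCommGroup V] [InnerProductSpace ℝ V]

lemma parseval [FiniteDimensional ℝ V] {ι : Type} [Fintype ι] [Nonempty ι] [DecidableEq ι]
    (hc : Fintype.card ι = Module.finrank ℝ V) {u : ι → V} (h0 : ∀ i, ‖u i‖ = 1)
    (h : ∀ i j, i ≠ j → ⟪u i, u j⟫ = 0) (x y : V) : ⟪x, y⟫ = ∑ i, ⟪x, u i⟫ * ⟪u i, y⟫ := by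
  have o : Orthonormal ℝ u := ⟨h0, h⟩
  rw [← ((basisOfOrthonormalOfCardEqFinrank o hc).toOrthonormalBasis (by simpa using o)
    ).sum_inner_mul_inner x y]
  simp

def wl (m N : ℕ) (I : List (ℕ × ℕ) × List ℕ) : List (ℕ × ℕ × Bool) :=
  (0, 1, true) :: (0, 2, true) :: (1, 2, true) ::
    ((List.range (N + m)).map (fun v => (v, N + m, false)) ++
    (List.range m).flatMap (fun k => (List.range (N + k)).map fun j => (j, N + k, true)) ++
    I.1.map (fun e => (e.1, e.2, true)) ++ I.2.map fun v => (v, 2, false))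

noncomputable def len (b : Bool) : ℝ := bif b then √2 else 1

omit [InnerProductSpace ℝ V] in
lemma wl_iff {m N I} {q : ℕ → V} : WReal len (wl m N I) q ↔ dist (q 0) (q 1) = √2 ∧
    dist (q 0) (q 2) = √2 ∧ dist (q 1) (q 2) = √2 ∧ (((∀ v < N + m, dist (q v) (q (N + m)) = 1) ∧
    ∀ k < m, ∀ j < N + k, dist (q j) (q (N + k)) = √2) ∧ ∀ e ∈ I.1, dist (q e.1) (q e.2) = √2) ∧
    ∀ v ∈ I.2, dist (q v) (q 2) = 1 := by
  simp only [WReal, wl, len, List.forall_mem_cons, List.forall_mem_append, List.forall_mem_flatMap,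
    List.forall_mem_map, List.mem_range, cond_true, cond_false]

lemma sound [FiniteDimensional ℝ V] {m N I} (hc : 3 + m = Module.finrank ℝ V) (N3 : 3 ≤ N)
    (h1 : ∀ e ∈ I.1, e.1 < N ∧ e.2 < N) (h2 : ∀ v ∈ I.2, v < N) {q : ℕ → V}
    (h : WReal len (wl m N I) q) : SP I := by
  obtain ⟨a1, a2, a3, ⟨⟨b1, b2⟩, b3⟩, b4⟩ := wl_iff.1 h
  let u : ℕ → V := fun v => q v - q (N + m)
  have o : ∀ i < N + m, ∀ j < N + m, dist (q i) (q j) = √2 → ⟪u i, u j⟫ = 0 := fun i hi j hj e => by
    rw [in_dist (b1 i hi) (b1 j hj) e, Real.sq_sqrt zero_le_two]; norm_num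
  have n : ∀ i < N + m, ⟪u i, u i⟫ = 1 := fun i hi => by
    rw [in_dist (b1 i hi) (b1 i hi) (dist_self _)]; norm_num
  have n' : ∀ i < N + m, ‖u i‖ = 1 := fun i hi => (dist_eq_norm _ _).symm.trans (b1 _ hi)
  have o1 := o 0 (by omega) 1 (by omega) a1
  have o2 := o 0 (by omega) 2 (by omega) a2
  have o3 := o 1 (by omega) 2 (by omega) a3
  have o4 : ∀ k < m, ∀ j < N + k, ⟪u j, u (N + k)⟫ = 0 := fun k hk j hj =>
    o _ (by omega) _ (by omega) (b2 k hk j hj)
  let w : ℕ → V3 := fun v => if v < N then fun i => ⟪u v, u i⟫ else ![1, 0, 0]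
  have key : ∀ x < N, ∀ y < N, ip (w x) (w y) = ⟪u x, u y⟫ := fun x hx y hy => by
    rw [parseval (ι := Fin 3 ⊕ Fin m) (by simpa using hc)
      (u := Sum.elim (fun i => u i) fun k => u (N + k)) ?_ ?_ (u x) (u y), Fintype.sum_sum_type,
      Finset.sum_eq_zero (s := Finset.univ (α := Fin m)) fun k _ => by
        simp [o4 k k.2 x (by omega)]]
    · simp [ip, w, hx, hy, Fin.sum_univ_three, real_inner_comm]
    · rintro (i | i)
      · exact n' _ (by omega)
      · exact n' _ (by omega)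
    · rintro (i | i) (j | j) e
      · fin_cases i <;> fin_cases j <;>
          first | exact (e rfl).elim | assumption | (rw [real_inner_comm]; assumption)
      · exact o4 j j.2 i (by omega)
      · rw [real_inner_comm]; exact o4 i i.2 j (by omega)
      · have : i.1 ≠ j.1 := fun h => e (by rw [Fin.ext h])
        rcases this.lt_or_gt with h | h
        · exact o4 j j.2 _ (by omega)
        · rw [real_inner_comm]; exact o4 i i.2 _ (by omega)
  refine ⟨w, ?_, ?_, ?_, fun v e => ?_, fun e he => ?_, fun v hv => ?_⟩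
  · ext i; fin_cases i <;> simp [w, show 0 < N by omega, n' 0 (by omega), o1, o2]
  · ext i; fin_cases i <;> simp [w, show 1 < N by omega, n' 1 (by omega), o3, real_inner_comm (u 0), o1]
  · ext i
    fin_cases i <;> simp [w, show 2 < N by omega, n' 2 (by omega), real_inner_comm (u 0),
      real_inner_comm (u 1), o2, o3]
  · by_cases hv : v < N
    · have := key v hv v hv
      rw [n v (by omega), e] at this
      simp [ip] at this
    · simp [w, hv] at e
  · obtain ⟨l1, l2⟩ := h1 e he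
    rw [key _ l1 _ l2, o _ (by omega) _ (by omega) (b3 e he)]
  · have l := h2 v hv
    have : w v 2 = 1 / 2 := by
      simp only [w, l, if_true]
      rw [show ((2 : Fin 3) : ℕ) = 2 from rfl, in_dist (b1 v (by omega)) (b1 2 (by omega)) (b4 v hv)]
      norm_num
    rw [key _ l _ l, n v (by omega), this]
    norm_num

lemma complete {m N I} {e : ℕ → V} (he : ON (3 + m) e) (N3 : 3 ≤ N)
    (h1 : ∀ e ∈ I.1, e.1 < N ∧ e.2 < N) (h2 : ∀ v ∈ I.2, v < N) (h : SP I) :
    ∃ q : ℕ → V, WReal len (wl m N I) q := by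
  obtain ⟨w, w0, w1, w2, nz, h3, h4⟩ := h
  let c : ℕ → ℝ := fun v => (√(ip (w v) (w v)))⁻¹
  have p0 : ∀ v, 0 < ip (w v) (w v) := fun v => by
    by_contra h
    refine v3_ne (nz v) ?_ ?_ ?_ <;> unfold ip at h <;>
      nlinarith [mul_self_nonneg (w v 0), mul_self_nonneg (w v 1), mul_self_nonneg (w v 2)]
  have c1 : ∀ v, c v * c v * ip (w v) (w v) = 1 := fun v => by
    simp only [c]
    rw [← mul_inv, Real.mul_self_sqrt (p0 v).le, inv_mul_cancel₀ (p0 v).ne']
  let q : ℕ → V := fun v => if v < N then c v • (w v 0 • e 0 + w v 1 • e 1 + w v 2 • e 2)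
    else if v < N + m then e (3 + (v - N)) else 0
  have qN : q (N + m) = 0 := by simp [q]
  have qk : ∀ k < m, q (N + k) = e (3 + k) := fun k hk => by simp [q, hk]
  have i1 : ∀ x < N, ∀ y < N, ⟪q x, q y⟫ = c x * c y * ip (w x) (w y) := fun x hx y hy => by
    simp only [q, hx, hy, if_true, inner_add_left, inner_add_right, real_inner_smul_left,
      real_inner_smul_right, he _ (show 0 < 3 + m by omega), he _ (show 1 < 3 + m by omega),
      he _ (show 2 < 3 + m by omega), show 0 < 3 + m by omega, show 1 < 3 + m by omega,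
      show 2 < 3 + m by omega, ip]
    norm_num
    ring
  have i2 : ∀ k < m, ∀ j < N + k, ⟪q j, q (N + k)⟫ = 0 := fun k hk j hj => by
    rw [qk k hk]
    by_cases l : j < N
    · simp only [q, l, if_true, inner_add_left, real_inner_smul_left,
        he _ (show 0 < 3 + m by omega) _ (show 3 + k < 3 + m by omega),
        he _ (show 1 < 3 + m by omega) _ (show 3 + k < 3 + m by omega),
        he _ (show 2 < 3 + m by omega) _ (show 3 + k < 3 + m by omega)]
      rw [if_neg (by omega), if_neg (by omega), if_neg (by omega)]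
      simp
    · obtain ⟨i, rfl⟩ := Nat.exists_eq_add_of_le (not_lt.1 l)
      rw [qk i (by omega), he _ (by omega) _ (by omega), if_neg (by omega)]
  have n : ∀ v < N + m, ⟪q v, q v⟫ = 1 := fun v hv => by
    by_cases l : v < N
    · rw [i1 v l v l, c1]
    · obtain ⟨i, rfl⟩ := Nat.exists_eq_add_of_le (not_lt.1 l)
      rw [qk i (by omega), he _ (by omega) _ (by omega), if_pos rfl]
  have ds : ∀ i < N + m, ∀ j < N + m, ∀ r, 0 ≤ r → 2 - 2 * ⟪q i, q j⟫ = r ^ 2 →
      dist (q i) (q j) = r := fun i hi j hj r r0 h => dist_of_sq r0 (by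
    rw [inner_sub_left, inner_sub_right, inner_sub_right, n i hi, n j hj, real_inner_comm (q i), ← h]
    ring)
  have o : ∀ i < N + m, ∀ j < N + m, ⟪q i, q j⟫ = 0 → dist (q i) (q j) = √2 := fun i hi j hj h =>
    ds i hi j hj _ (Real.sqrt_nonneg _) (by rw [h, Real.sq_sqrt zero_le_two]; norm_num)
  have o' : ∀ i < N, ∀ j < N, ip (w i) (w j) = 0 → dist (q i) (q j) = √2 := fun i hi j hj h =>
    o i (by omega) j (by omega) (by rw [i1 i hi j hj, h, mul_zero])
  refine ⟨q, wl_iff.2 ⟨o' 0 (by omega) 1 (by omega) (by simp [ip, w0, w1]),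
    o' 0 (by omega) 2 (by omega) (by simp [ip, w0, w2]),
    o' 1 (by omega) 2 (by omega) (by simp [ip, w1, w2]), ⟨⟨fun v hv => ?_, fun k hk j hj =>
      o _ (by omega) _ (by omega) (i2 k hk j hj)⟩, fun e he => o' _ (h1 e he).1 _ (h1 e he).2
      (h3 e he)⟩, fun v hv => ?_⟩⟩
  · exact dist_of_sq zero_le_one (by rw [qN, sub_zero, n v hv]; norm_num)
  · have l := h2 v hv
    obtain ⟨k1, k2⟩ := h4 v hv
    refine ds v (by omega) 2 (by omega) 1 zero_le_one ?_
    rw [i1 v l 2 (by omega)]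
    have : c v = (2 * w v 2)⁻¹ := by
      simp only [c]
      rw [k1, show 4 * w v 2 ^ 2 = (2 * w v 2) ^ 2 by ring, Real.sqrt_sq (by linarith)]
    rw [this]
    simp [c, w2, ip]
    field_simp
    norm_num

lemma main [FiniteDimensional ℝ V] {m : ℕ} (hV : Module.finrank ℝ V = 3 + m) {e : ℕ → V}
    (he : ON (3 + m) e) : ERHard (Lang fun A : List (List Bool) => IsGraph A ∧
      ∃ p : Fin A.length → V, ∀ u v, (graphOf A).Adj u v → dist (p u) (p v) = 1) := by
  classical
  have hd : 3 ≤ 3 + m := by omega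
  obtain ⟨G2, hG⟩ := con_sqrt2 hV he hd
  let gad : Bool → List (ℕ × ℕ) := fun t => bif t then G2 else [(0, 1)]
  have hg : ∀ t, Spec V (gad t) (len t) := by
    rintro (_ | _)
    · exact ⟨fun p h => h _ List.mem_cons_self, fun a b h =>
        ⟨fun v => if v = 0 then a else b, rfl, rfl, by simpa [UReal, gad]⟩⟩
    · exact hG
  have r1 : RH ETR fun G : List (ℕ × ℕ) => ∃ p : ℕ → V, UReal G p := by
    refine rh_sp.red (r := fun I => subst (size I + 3 + m + 1) gad (wl m (size I + 3) I))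
      (by unfold subst wl rn; fun_prop) fun I => ?_
    have h1 : ∀ e ∈ I.1, e.1 < size I + 3 ∧ e.2 < size I + 3 := fun e he => by
      have := size_lt_of_mem he
      rw [show e = (e.1, e.2) from rfl, size_pair, size_nat, size_nat] at this
      rw [show I = (I.1, I.2) from rfl, size_pair]
      omega
    have h2 : ∀ v ∈ I.2, v < size I + 3 := fun e he => by
      have := size_lt_of_mem he
      rw [size_nat] at this
      rw [show I = (I.1, I.2) from rfl, size_pair]
      omega
    refine ⟨fun h => ?_, fun ⟨p, hp⟩ =>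
      sound hV.symm (by omega) h1 h2 (subst_sound (fun e _ => hg _) hp)⟩
    obtain ⟨q, hq⟩ := complete he (by omega) h1 h2 h
    obtain ⟨p, -, hp⟩ := subst_complete (N := size I + 3 + m + 1) (fun e _ => hg _) (by
      simp only [wl, List.forall_mem_cons, List.forall_mem_append, List.forall_mem_flatMap,
        List.forall_mem_map, List.mem_range]
      refine ⟨by omega, by omega, by omega, ⟨⟨by omega, by omega⟩, fun e he => ?_⟩, fun e he => ?_⟩
      · have := h1 e he; omega
      · have := h2 e he; omega) hq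
    exact ⟨p, hp⟩
  let r : List (ℕ × ℕ) → ℕ → ℕ → Bool := fun G u v => decide ((u, v) ∈ G ∨ ∃ f ∈ G, f.1 = f.2)
  refine RH.erHard (r1.red (r := fun G => gmat (List.range (size G + (3 + m + 2))) (r G))
    (PT.gmat (by fun_prop) (PP.decide (by fun_prop))) fun G => ?_)
  have i := gmatIso (List.range (size G + (3 + m + 2))) (r G) List.nodup_range
  refine ⟨fun ⟨p, hp⟩ => ⟨isGraph_gmat _ _, fun v => p (i v).1, fun u v a => ?_⟩, fun ⟨_, p, hp⟩ => ?_⟩
  · have z : ¬ ∃ f ∈ G, f.1 = f.2 := fun ⟨f, hf, h⟩ => by simpa [h] using hp f hf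
    rcases ((listGraph_adj _ _ _ _).1 (i.map_adj_iff.2 a)).2 with a | a
    · exact hp _ ((of_decide_eq_true a).resolve_right z)
    · rw [dist_comm]; exact hp _ ((of_decide_eq_true a).resolve_right z)
  · let q : ℕ → V := fun v => if h : v < size G + (3 + m + 2) then p (i.symm ⟨v, List.mem_range.2 h⟩)
      else 0
    have k : ∀ u < size G + (3 + m + 2), ∀ v < size G + (3 + m + 2), u ≠ v →
        ((u, v) ∈ G ∨ ∃ f ∈ G, f.1 = f.2) → dist (q u) (q v) = 1 := fun u hu v hv uv h => by
      simp only [q, hu, hv, dif_pos]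
      exact hp _ _ (i.symm.map_adj_iff.2 ((listGraph_adj _ _ _ _).2 ⟨uv, .inl (decide_eq_true h)⟩))
    by_cases z : ∃ f ∈ G, f.1 = f.2
    · exact (no_clique hV hd (p := q) fun u hu v hv uv =>
        k u (by omega) v (by omega) uv (.inr z)).elim
    · refine ⟨q, fun f hf => ?_⟩
      have := size_lt_of_mem hf
      rw [show f = (f.1, f.2) from rfl, size_pair, size_nat, size_nat] at this
      exact k _ (by omega) _ (by omega) (fun h => z ⟨f, hf, h⟩) (.inl hf)

end

theorem result (d : ℕ) (hd : 3 ≤ d) :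
    ERHard (Lang fun A : List (List Bool) => IsGraph A ∧
      ∃ p : Fin A.length → EuclideanSpace ℝ (Fin d), ∀ u v, (graphOf A).Adj u v →
        dist (p u) (p v) = 1) := by
  obtain ⟨m, rfl⟩ := Nat.exists_eq_add_of_le hd
  refine main (m := m) (by simp) (e := fun i => if h : i < 3 + m then
    EuclideanSpace.basisFun (Fin (3 + m)) ℝ ⟨i, h⟩ else 0) fun i hi j hj => ?_
  simp only [hi, hj, dif_pos]
  rw [orthonormal_iff_ite.1 (EuclideanSpace.basisFun (Fin (3 + m)) ℝ).orthonormal]
  simp [Fin.ext_iff]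

end Pool.Agent.Results.MP_f9087f_lc.UnitLink
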